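import Pool.Agent.H93.AR.Defs
import Pool.Agent.H54.LS.AVG

/-! Module KS: oscillatory integrals over the sphere, from one bump. -/

set_option autoImplicit false

open MeasureTheory Set Pool.Agent.H83.LS Pool.Agent.H54.LS Pool.Agent.H93.AR FourierTransform
open scoped ENNReal NNReal

namespace Pool.Agent.H31.BR

theorem eta_one {s : ℝ} (h : s ≤ 1) : eta0 s = 1 :=
  Real.smoothTransition.one_of_one_le (by linarith)

theorem eta_zero {s : ℝ} (h : 2 ≤ s) : eta0 s = 0 :=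
  Real.smoothTransition.zero_of_nonpos (by linarith)

theorem eta_nonneg (s : ℝ) : 0 ≤ eta0 s := Real.smoothTransition.nonneg _

theorem eta_le_one (s : ℝ) : eta0 s ≤ 1 := Real.smoothTransition.le_one _

theorem eta_cont : Continuous eta0 := by
  unfold eta0
  exact Real.smoothTransition.continuous.comp (by fun_prop)

/-- the mass of the bump at `v` -/
noncomputable def mR (n : ℕ) (R : ℝ) (v : EE n) : ℝ :=
  ∫ ζ : Sp n, eta0 (8 * (Real.sqrt R * ‖v - (ζ : EE n)‖)) ∂(sg n)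

theorem mR_const (hSI : T_SI) {n : ℕ} (hn : 1 ≤ n) (R : ℝ) (v v' : EE n) (hv : ‖v‖ = 1)
    (hv' : ‖v'‖ = 1) : mR n R v = mR n R v' := by
  classical
  let Q : EE n ≃ₗᵢ[ℝ] EE n := ((Submodule.span ℝ {v - v'})ᗮ).reflection
  have hQ : Q v = v' := Submodule.reflection_sub (hv.trans hv'.symm)
  have hm : Continuous fun x : EE n => ((eta0 (8 * (Real.sqrt R * ‖v' - x‖)) : ℝ) : ℂ) :=
    Complex.continuous_ofReal.comp (eta_cont.comp (by fun_prop))
  have h := (hSI n Q hn).2 (fun x : EE n => ((eta0 (8 * (Real.sqrt R * ‖v' - x‖)) : ℝ) : ℂ))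
    hm.measurable ⟨1, fun x => by
      rw [Complex.norm_real, Real.norm_of_nonneg (eta_nonneg _)]
      exact eta_le_one _⟩
  have e1 : ∀ w : Sp n, ((eta0 (8 * (Real.sqrt R * ‖v' - Q (w : EE n)‖)) : ℝ) : ℂ) =
      ((eta0 (8 * (Real.sqrt R * ‖v - (w : EE n)‖)) : ℝ) : ℂ) := by
    intro w
    rw [← hQ, ← map_sub, Q.norm_map]
  have h2 : ∫ w : Sp n, ((eta0 (8 * (Real.sqrt R * ‖v - (w : EE n)‖)) : ℝ) : ℂ) ∂(sg n) =
      ∫ w : Sp n, ((eta0 (8 * (Real.sqrt R * ‖v' - (w : EE n)‖)) : ℝ) : ℂ) ∂(sg n) := by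
    refine Eq.trans (integral_congr_ae (ae_of_all _ fun w => ?_)) h
    exact (e1 w).symm
  have h3 := integral_ofReal (𝕜 := ℂ) (μ := sg n)
    (f := fun w : Sp n => eta0 (8 * (Real.sqrt R * ‖v - (w : EE n)‖)))
  have h4 := integral_ofReal (𝕜 := ℂ) (μ := sg n)
    (f := fun w : Sp n => eta0 (8 * (Real.sqrt R * ‖v' - (w : EE n)‖)))
  exact Complex.ofReal_injective (h3.symm.trans (h2.trans h4))

theorem eta_integrable {n : ℕ} (R : ℝ) (v : EE n) :
    Integrable (fun ζ : Sp n => eta0 (8 * (Real.sqrt R * ‖v - (ζ : EE n)‖))) (sg n) := by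
  have h1 : Continuous fun ζ : Sp n => eta0 (8 * (Real.sqrt R * ‖v - (ζ : EE n)‖)) :=
    eta_cont.comp (by fun_prop)
  refine Integrable.of_bound h1.aestronglyMeasurable 1 (ae_of_all _ fun ζ => ?_)
  rw [Real.norm_of_nonneg (eta_nonneg _)]
  exact eta_le_one _

theorem mR_lower {n : ℕ} {R : ℝ} (hR : 1 ≤ R) (v : EE n) :
    (sg n).real {w : Sp n | ‖v - (w : EE n)‖ ≤ 1 / (8 * Real.sqrt R)} ≤ mR n R v := by
  have hρ : 0 < Real.sqrt R := Real.sqrt_pos.2 (by linarith)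
  have hms : MeasurableSet {w : Sp n | ‖v - (w : EE n)‖ ≤ 1 / (8 * Real.sqrt R)} := by
    apply measurableSet_le
    · exact (show Continuous fun w : Sp n => ‖v - (w : EE n)‖ by fun_prop).measurable
    · exact measurable_const
  have h1 := integral_indicator_const (μ := sg n) (1 : ℝ) hms
  rw [smul_eq_mul, mul_one] at h1
  rw [← h1]
  unfold mR
  apply integral_mono
  · exact (integrable_const (1 : ℝ)).indicator hms
  · exact eta_integrable R v
  · intro w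
    simp only [indicator]
    split_ifs with h
    · rw [eta_one]
      have h2 : ‖v - (w : EE n)‖ ≤ 1 / (8 * Real.sqrt R) := h
      rw [le_div_iff₀ (by positivity)] at h2
      linarith
    · exact eta_nonneg _

theorem sa_bound {n M : ℕ} {δ B : ℝ} {g : ℝ × EE n → ℂ} (hg : SA n M δ B g) (s : ℝ) (w : EE n)
    (hw : ‖w‖ = 1) : ‖g (s, w)‖ ≤ B := by
  have h := hg.2.2 w hw 0 (Nat.zero_le _) (s, 0) (by simp)
  rw [norm_iteratedFDeriv_zero] at h
  simpa using h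

/-- superposition of bumps -/
theorem osc_avg (hSI : T_SI) {n M : ℕ} (hn : 1 ≤ n) {δ B : ℝ} {g : ℝ × EE n → ℂ}
    (hg : SA n M δ B g) (X R : ℝ) (u : EE n) (hu : ‖u‖ = 1) :
    ((mR n R u : ℝ) : ℂ) * osc n g X R u =
      ∫ ζ : Sp n, osc n (fun q => g q *
        ((eta0 (8 * (Real.sqrt R * ‖q.2 - (ζ : EE n)‖)) : ℝ) : ℂ)) X R u ∂(sg n) := by
  have hgc : Continuous g := hg.1.continuous
  have hgz : ∀ s w, ¬ (1 / 8 ≤ s ∧ s ≤ 8) → g (s, w) = 0 := by
    intro s w h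
    by_contra h0
    exact h (hg.2.1 (s, w) h0)
  let G : ℝ → Sp n → Sp n → ℂ := fun s w ζ => e (s * (X - R * inner ℝ u (w : EE n))) *
    (g (s, (w : EE n)) * ((eta0 (8 * (Real.sqrt R * ‖(w : EE n) - (ζ : EE n)‖)) : ℝ) : ℂ))
  have hGc : Continuous fun q : (Sp n × ℝ) × Sp n => G q.1.2 q.2 q.1.1 := by
    have h1 : Continuous fun q : (Sp n × ℝ) × Sp n =>
        e (q.1.2 * (X - R * inner ℝ u (q.2 : EE n))) := continuous_e.comp (by fun_prop)
    have h2 : Continuous fun q : (Sp n × ℝ) × Sp n => g (q.1.2, (q.2 : EE n)) :=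
      hgc.comp (by fun_prop)
    have h3 : Continuous fun q : (Sp n × ℝ) × Sp n =>
        ((eta0 (8 * (Real.sqrt R * ‖(q.2 : EE n) - (q.1.1 : EE n)‖)) : ℝ) : ℂ) :=
      Complex.continuous_ofReal.comp (eta_cont.comp (by fun_prop))
    exact h1.mul (h2.mul h3)
  have hGb : ∀ s w ζ, ‖G s w ζ‖ ≤ B := by
    intro s w ζ
    have h1 := sa_bound hg s (w : EE n) (norm_sp w)
    simp only [G]
    rw [norm_mul, norm_e, one_mul, norm_mul, Complex.norm_real,
      Real.norm_of_nonneg (eta_nonneg _)]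
    calc _ ≤ ‖g (s, (w : EE n))‖ * 1 :=
          mul_le_mul_of_nonneg_left (eta_le_one _) (norm_nonneg _)
      _ ≤ B := by rw [mul_one]; exact h1
  have hGz : ∀ s w ζ, ¬ (1 / 8 ≤ s ∧ s ≤ 8) → G s w ζ = 0 := by
    intro s w ζ h
    simp only [G]
    rw [hgz s _ h]
    ring
  have hR : ∫ ζ : Sp n, osc n (fun q => g q *
      ((eta0 (8 * (Real.sqrt R * ‖q.2 - (ζ : EE n)‖)) : ℝ) : ℂ)) X R u ∂(sg n) =
      ∫ ζ : Sp n, ∫ s : ℝ, ∫ w : Sp n, G s w ζ ∂(sg n) ∂volume ∂(sg n) := rfl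
  rw [hR, integral_integral_swap]
  · unfold osc
    rw [← integral_const_mul]
    refine integral_congr_ae (ae_of_all _ fun s => ?_)
    simp only
    rw [integral_integral_swap, ← integral_const_mul]
    · refine integral_congr_ae (ae_of_all _ fun w => ?_)
      simp only [G]
      rw [integral_const_mul, integral_const_mul]
      have h3 := integral_ofReal (𝕜 := ℂ) (μ := sg n)
        (f := fun ζ : Sp n => eta0 (8 * (Real.sqrt R * ‖(w : EE n) - (ζ : EE n)‖)))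
      have h4 := mR_const hSI hn R u (w : EE n) hu (norm_sp w)
      have h5 : ∫ ζ : Sp n,
          ((eta0 (8 * (Real.sqrt R * ‖(w : EE n) - (ζ : EE n)‖)) : ℝ) : ℂ) ∂(sg n) =
          ((mR n R u : ℝ) : ℂ) := by
        rw [h4]
        exact h3
      rw [h5]
      ring
    · have h1 : Continuous fun q : Sp n × Sp n => G s q.2 q.1 := by
        have h2 : Continuous fun q : Sp n × Sp n => (((q.1, s), q.2) : (Sp n × ℝ) × Sp n) := by
          fun_prop
        exact hGc.comp h2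
      refine Integrable.of_bound h1.aestronglyMeasurable B (ae_of_all _ fun q => ?_)
      exact hGb _ _ _
  · have h1 : StronglyMeasurable fun p : Sp n × ℝ => ∫ w : Sp n, G p.2 w p.1 ∂(sg n) :=
      hGc.stronglyMeasurable.integral_prod_right'
    have h2 : Integrable ((Icc (1 / 8 : ℝ) 8).indicator fun _ => B * ((sg n) univ).toReal) := by
      refine IntegrableOn.integrable_indicator ?_ measurableSet_Icc
      exact integrableOn_const (by simp)
    have h3 : Integrable (fun p : Sp n × ℝ => (1 : ℝ) *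
        (Icc (1 / 8 : ℝ) 8).indicator (fun _ => B * ((sg n) univ).toReal) p.2)
        ((sg n).prod volume) := (integrable_const (1 : ℝ)).mul_prod h2
    refine h3.mono' h1.aestronglyMeasurable (ae_of_all _ fun p => ?_)
    simp only [Function.uncurry, one_mul]
    by_cases hp : 1 / 8 ≤ p.2 ∧ p.2 ≤ 8
    · rw [indicator_of_mem (show p.2 ∈ Icc (1 / 8 : ℝ) 8 from hp)]
      exact norm_integral_le_of_norm_le_const (ae_of_all _ fun w => hGb _ _ _)
    · rw [indicator_of_notMem (show p.2 ∉ Icc (1 / 8 : ℝ) 8 from hp)]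
      have : ∀ w : Sp n, G p.2 w p.1 = 0 := fun w => hGz _ _ _ hp
      simp [this]

theorem pow_bd (N n : ℕ) (a b x y z : ℝ) (ha : 1 ≤ a) (hb : 1 ≤ b) (hx : 1 ≤ x) (hy : 1 ≤ y)
    (hz : 1 ≤ z) (h1 : x ≤ a * b ^ 2) (h2 : y ≤ 2 * b) (h3 : z ≤ 2 * b) :
    (a ^ (3 * N + n + 1))⁻¹ * (b ^ (3 * N + n + 1))⁻¹ ≤
      2 ^ (N + n + 1) * ((x ^ N)⁻¹ * (y ^ N)⁻¹ * (z ^ (n + 1))⁻¹) := by
  have hx0 : 0 < x := by linarith
  have hy0 : 0 < y := by linarith
  have hz0 : 0 < z := by linarith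
  have ha0 : 0 < a := by linarith
  have hb0 : 0 < b := by linarith
  have e1 : x ^ N ≤ a ^ N * b ^ (2 * N) := by
    calc x ^ N ≤ (a * b ^ 2) ^ N := pow_le_pow_left₀ hx0.le h1 N
      _ = a ^ N * b ^ (2 * N) := by rw [mul_pow, ← pow_mul]
  have e2 : y ^ N ≤ 2 ^ N * b ^ N := by
    calc y ^ N ≤ (2 * b) ^ N := pow_le_pow_left₀ hy0.le h2 N
      _ = _ := by rw [mul_pow]
  have e3 : z ^ (n + 1) ≤ 2 ^ (n + 1) * b ^ (n + 1) := by
    calc z ^ (n + 1) ≤ (2 * b) ^ (n + 1) := pow_le_pow_left₀ hz0.le h3 _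
      _ = _ := by rw [mul_pow]
  have e4 : a ^ N ≤ a ^ (3 * N + n + 1) := pow_le_pow_right₀ ha (by omega)
  have e5 : x ^ N * y ^ N * z ^ (n + 1) ≤
      2 ^ (N + n + 1) * (a ^ (3 * N + n + 1) * b ^ (3 * N + n + 1)) := by
    calc x ^ N * y ^ N * z ^ (n + 1) ≤
          (a ^ N * b ^ (2 * N)) * (2 ^ N * b ^ N) * (2 ^ (n + 1) * b ^ (n + 1)) := by
          gcongr
      _ = 2 ^ (N + n + 1) * (a ^ N * b ^ (3 * N + n + 1)) := by ring
      _ ≤ _ := by gcongr
  rw [← mul_inv, ← mul_inv, ← mul_inv, ← div_eq_mul_inv, le_div_iff₀ (by positivity),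
    inv_mul_le_iff₀ (by positivity)]
  linarith

/-- the geometric part: near the critical point `u` -/
theorem case_pos (N n : ℕ) (u ζ w : EE n) (X R D : ℝ) (hR : 1 ≤ R) (hu : ‖u‖ = 1)
    (hζ : ‖ζ‖ = 1) (hc : 0 ≤ inner ℝ u ζ) (hD0 : 0 ≤ D) (hD : D ≤ ‖w - u‖)
    (hw : ‖w - ζ‖ ≤ 1 / (4 * Real.sqrt R)) :
    ((1 + |X - R * inner ℝ u ζ|) ^ (3 * N + n + 1))⁻¹ *
      ((1 + Real.sqrt R * ‖u - (inner ℝ u ζ) • ζ‖) ^ (3 * N + n + 1))⁻¹ ≤
    2 ^ (N + n + 1) * (((1 + |X - R|) ^ N)⁻¹ * ((1 + Real.sqrt R * D) ^ N)⁻¹ *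
      ((1 + Real.sqrt R * ‖u - ζ‖) ^ (n + 1))⁻¹) := by
  set c : ℝ := inner ℝ u ζ with hcdef
  set ρ := Real.sqrt R with hρdef
  have hρ1 : 1 ≤ ρ := Real.one_le_sqrt.2 hR
  have hρ0 : 0 < ρ := by linarith
  have hρR : R = ρ ^ 2 := (Real.sq_sqrt (by linarith)).symm
  have hc1 : c ≤ 1 := by
    have h := real_inner_le_norm u ζ
    rw [hu, hζ] at h
    linarith
  set s := ‖u - c • ζ‖ with hsdef
  have hs0 : 0 ≤ s := norm_nonneg _
  have hs2 : s ^ 2 = 1 - c ^ 2 := by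
    rw [hsdef, @norm_sub_sq_real, inner_smul_right, norm_smul, hu, hζ, ← hcdef]
    rw [Real.norm_of_nonneg hc]
    ring
  have hd2 : ‖u - ζ‖ ^ 2 = 2 - 2 * c := by
    rw [@norm_sub_sq_real, hu, hζ, ← hcdef]
    ring
  have hcs : 1 - c ≤ s ^ 2 := by rw [hs2]; nlinarith
  have hds : ‖u - ζ‖ ≤ 2 * s := by
    have : ‖u - ζ‖ ^ 2 ≤ (2 * s) ^ 2 := by rw [hd2]; nlinarith
    exact (pow_le_pow_iff_left₀ (norm_nonneg _) (by positivity) two_ne_zero).1 this
  have hDs : ρ * D ≤ 1 / 4 + 2 * (ρ * s) := by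
    have h1 : ‖w - u‖ ≤ ‖w - ζ‖ + ‖ζ - u‖ := norm_sub_le_norm_sub_add_norm_sub w ζ u
    rw [norm_sub_rev ζ u] at h1
    have h2 : ρ * ‖w - ζ‖ ≤ 1 / 4 := by
      calc ρ * ‖w - ζ‖ ≤ ρ * (1 / (4 * ρ)) := mul_le_mul_of_nonneg_left hw hρ0.le
        _ = 1 / 4 := by field_simp
    have h3 : D ≤ ‖w - ζ‖ + 2 * s := by linarith
    have h4 := mul_le_mul_of_nonneg_left h3 hρ0.le
    nlinarith
  apply pow_bd
  · linarith [abs_nonneg (X - R * c)]
  · linarith [mul_nonneg hρ0.le hs0]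
  · linarith [abs_nonneg (X - R)]
  · linarith [mul_nonneg hρ0.le hD0]
  · linarith [mul_nonneg hρ0.le (norm_nonneg (u - ζ))]
  · have h1 : |X - R| ≤ |X - R * c| + R * (1 - c) := by
      have h2 : X - R = (X - R * c) - R * (1 - c) := by ring
      rw [h2]
      refine (abs_sub _ _).trans ?_
      rw [abs_of_nonneg (mul_nonneg (by linarith) (by linarith) : 0 ≤ R * (1 - c))]
    have h2 : R * (1 - c) ≤ (ρ * s) ^ 2 := by
      rw [mul_pow, ← hρR]
      exact mul_le_mul_of_nonneg_left hcs (by linarith)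
    have h3 : 0 ≤ ρ * s := mul_nonneg hρ0.le hs0
    have h4 : 0 ≤ |X - R * c| := abs_nonneg _
    nlinarith [mul_nonneg h4 h3, mul_nonneg h4 (mul_nonneg h3 h3)]
  · nlinarith [mul_nonneg hρ0.le hs0]
  · have := mul_le_mul_of_nonneg_left hds hρ0.le
    nlinarith [mul_nonneg hρ0.le hs0]

theorem pf_ks (hBU : T_BU) (hSBL : T_SBL) (hSI : T_SI) : T_KS := by
  intro n N hn
  have hn1 : 1 ≤ n := by omega
  obtain ⟨M, C₁, hC₁⟩ := hBU n (3 * N + n + 1) hn
  obtain ⟨C₂, hC₂0, hC₂⟩ := hSBL n hn1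
  refine ⟨M, |C₁| * 2 ^ (N + n + 1) * C₂ ^ 2, ?_⟩
  intro g δ B X R Dp Dm u hg hR hδ hu hDp hDm hsupp
  set ρ := Real.sqrt R with hρdef
  have hρ1 : 1 ≤ ρ := Real.one_le_sqrt.2 hR
  have hρ0 : 0 < ρ := by linarith
  have hB : 0 ≤ B := (norm_nonneg _).trans (sa_bound hg 1 u hu)
  set T := (ρ ^ (n - 1))⁻¹ with hTdef
  have hT : 0 < T := by positivity
  set Ap := ((1 + |X - R|) ^ N)⁻¹ * ((1 + ρ * Dp) ^ N)⁻¹ with hAp
  set Am := ((1 + |X + R|) ^ N)⁻¹ * ((1 + ρ * Dm) ^ N)⁻¹ with hAm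
  have hAp0 : 0 ≤ Ap := by positivity
  have hAm0 : 0 ≤ Am := by positivity
  set K := |C₁| * B * T * 2 ^ (N + n + 1) with hK
  have hK0 : 0 ≤ K := by positivity
  -- the kernel
  let k : EE n → Sp n → ℝ := fun v ζ => ((1 + ρ * ‖v - (ζ : EE n)‖) ^ (n + 1))⁻¹
  have hk0 : ∀ v ζ, 0 ≤ k v ζ := fun v ζ => by
    simp only [k]
    positivity
  have hk1 : ∀ v ζ, k v ζ ≤ 1 := by
    intro v ζ
    simp only [k]
    apply inv_le_one_of_one_le₀
    apply one_le_pow₀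
    linarith [mul_nonneg hρ0.le (norm_nonneg (v - (ζ : EE n)))]
  have hkc : ∀ v, Continuous (k v) := by
    intro v
    simp only [k]
    refine Continuous.inv₀ (by fun_prop) fun ζ => ?_
    have : 0 < 1 + ρ * ‖v - (ζ : EE n)‖ := by
      linarith [mul_nonneg hρ0.le (norm_nonneg (v - (ζ : EE n)))]
    positivity
  have hki : ∀ v, Integrable (k v) (sg n) := by
    intro v
    refine Integrable.of_bound (hkc v).aestronglyMeasurable 1 (ae_of_all _ fun ζ => ?_)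
    rw [Real.norm_of_nonneg (hk0 _ _)]
    exact hk1 _ _
  have hkI : ∀ v : EE n, ‖v‖ = 1 → ∫ ζ, k v ζ ∂(sg n) ≤ C₂ * T := by
    intro v hv
    rw [integral_eq_lintegral_of_nonneg_ae (ae_of_all _ fun ζ => hk0 v ζ)
      (hkc v).aestronglyMeasurable]
    exact ENNReal.toReal_le_of_le_ofReal (by positivity) (hC₂ ρ v hρ1 hv).1
  -- pointwise bound
  have hI : ∀ ζ : Sp n, ‖osc n (fun q => g q *
      ((eta0 (8 * (ρ * ‖q.2 - (ζ : EE n)‖)) : ℝ) : ℂ)) X R u‖ ≤
      K * (Ap * k u ζ + Am * k (-u) ζ) := by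
    intro ζ
    have hζ := norm_sp ζ
    have hbu := hC₁ g δ B X R u (ζ : EE n) hg hR hδ hu hζ
    by_cases hz : ∀ (s : ℝ) (w : Sp n), g (s, (w : EE n)) *
        ((eta0 (8 * (ρ * ‖(w : EE n) - (ζ : EE n)‖)) : ℝ) : ℂ) = 0
    · have h0 : osc n (fun q => g q *
          ((eta0 (8 * (ρ * ‖q.2 - (ζ : EE n)‖)) : ℝ) : ℂ)) X R u = 0 := by
        unfold osc
        simp only [hz, mul_zero, integral_zero]
      rw [h0, norm_zero]
      have := hk0 u ζ
      have := hk0 (-u) ζ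
      positivity
    · push Not at hz
      obtain ⟨s₀, w, hw⟩ := hz
      have hw1 : g (s₀, (w : EE n)) ≠ 0 := left_ne_zero_of_mul hw
      have hw2 : ((eta0 (8 * (ρ * ‖(w : EE n) - (ζ : EE n)‖)) : ℝ) : ℂ) ≠ 0 :=
        right_ne_zero_of_mul hw
      have hw3 : ‖(w : EE n) - (ζ : EE n)‖ ≤ 1 / (4 * ρ) := by
        by_contra h
        push Not at h
        rw [div_lt_iff₀ (by positivity)] at h
        apply hw2
        rw [eta_zero (by nlinarith)]
        simp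
      obtain ⟨hsp, hsm⟩ := hsupp s₀ (w : EE n) (norm_sp w) hw1
      have hbase : C₁ * B * T ≤ |C₁| * B * T := by
        have := le_abs_self C₁
        gcongr
      have hCB : 0 ≤ |C₁| * B * T := by positivity
      have hk0u := hk0 u ζ
      have hk0m := hk0 (-u) ζ
      rcases le_total 0 (inner ℝ u (ζ : EE n)) with hc | hc
      · have h1 := case_pos N n u (ζ : EE n) (w : EE n) X R Dp hR hu hζ hc hDp hsp hw3
        calc _ ≤ C₁ * B * T * ((1 + |X - R * inner ℝ u (ζ : EE n)|) ^ (3 * N + n + 1))⁻¹ *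
              ((1 + ρ * ‖u - (inner ℝ u (ζ : EE n)) • (ζ : EE n)‖) ^ (3 * N + n + 1))⁻¹ := hbu
          _ = C₁ * B * T * (((1 + |X - R * inner ℝ u (ζ : EE n)|) ^ (3 * N + n + 1))⁻¹ *
              ((1 + ρ * ‖u - (inner ℝ u (ζ : EE n)) • (ζ : EE n)‖) ^ (3 * N + n + 1))⁻¹) := by
              ring
          _ ≤ |C₁| * B * T * (((1 + |X - R * inner ℝ u (ζ : EE n)|) ^ (3 * N + n + 1))⁻¹ *
              ((1 + ρ * ‖u - (inner ℝ u (ζ : EE n)) • (ζ : EE n)‖) ^ (3 * N + n + 1))⁻¹) :=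
              mul_le_mul_of_nonneg_right hbase (by positivity)
          _ ≤ |C₁| * B * T * (2 ^ (N + n + 1) * (((1 + |X - R|) ^ N)⁻¹ *
              ((1 + ρ * Dp) ^ N)⁻¹ * ((1 + ρ * ‖u - (ζ : EE n)‖) ^ (n + 1))⁻¹)) :=
              mul_le_mul_of_nonneg_left h1 hCB
          _ = K * (Ap * k u ζ) := by
              simp only [hK, hAp, k]
              ring
          _ ≤ K * (Ap * k u ζ + Am * k (-u) ζ) := by
              apply mul_le_mul_of_nonneg_left _ hK0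
              linarith [mul_nonneg hAm0 hk0m]
      · have hc' : 0 ≤ inner ℝ (-u) (ζ : EE n) := by
          rw [inner_neg_left]
          linarith
        have hsm' : Dm ≤ ‖(w : EE n) - -u‖ := by
          rw [sub_neg_eq_add]
          exact hsm
        have h1 := case_pos N n (-u) (ζ : EE n) (w : EE n) (-X) R Dm hR (by rw [norm_neg, hu])
          hζ hc' hDm hsm' hw3
        have e1 : |(-X) - R * inner ℝ (-u) (ζ : EE n)| = |X - R * inner ℝ u (ζ : EE n)| := by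
          rw [inner_neg_left, ← abs_neg]
          congr 1
          ring
        have e2 : ‖(-u) - (inner ℝ (-u) (ζ : EE n)) • (ζ : EE n)‖ =
            ‖u - (inner ℝ u (ζ : EE n)) • (ζ : EE n)‖ := by
          rw [inner_neg_left, neg_smul, ← norm_neg]
          congr 1
          abel
        have e3 : |(-X) - R| = |X + R| := by
          rw [← abs_neg]
          congr 1
          ring
        rw [e1, e2, e3] at h1
        calc _ ≤ C₁ * B * T * ((1 + |X - R * inner ℝ u (ζ : EE n)|) ^ (3 * N + n + 1))⁻¹ *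
              ((1 + ρ * ‖u - (inner ℝ u (ζ : EE n)) • (ζ : EE n)‖) ^ (3 * N + n + 1))⁻¹ := hbu
          _ = C₁ * B * T * (((1 + |X - R * inner ℝ u (ζ : EE n)|) ^ (3 * N + n + 1))⁻¹ *
              ((1 + ρ * ‖u - (inner ℝ u (ζ : EE n)) • (ζ : EE n)‖) ^ (3 * N + n + 1))⁻¹) := by
              ring
          _ ≤ |C₁| * B * T * (((1 + |X - R * inner ℝ u (ζ : EE n)|) ^ (3 * N + n + 1))⁻¹ *
              ((1 + ρ * ‖u - (inner ℝ u (ζ : EE n)) • (ζ : EE n)‖) ^ (3 * N + n + 1))⁻¹) :=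
              mul_le_mul_of_nonneg_right hbase (by positivity)
          _ ≤ |C₁| * B * T * (2 ^ (N + n + 1) * (((1 + |X + R|) ^ N)⁻¹ *
              ((1 + ρ * Dm) ^ N)⁻¹ * ((1 + ρ * ‖-u - (ζ : EE n)‖) ^ (n + 1))⁻¹)) :=
              mul_le_mul_of_nonneg_left h1 hCB
          _ = K * (Am * k (-u) ζ) := by
              simp only [hK, hAm, k]
              ring
          _ ≤ K * (Ap * k u ζ + Am * k (-u) ζ) := by
              apply mul_le_mul_of_nonneg_left _ hK0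
              linarith [mul_nonneg hAp0 hk0u]
  -- integrate
  have hsum : Integrable (fun ζ => K * (Ap * k u ζ + Am * k (-u) ζ)) (sg n) :=
    (((hki u).const_mul Ap).add ((hki (-u)).const_mul Am)).const_mul K
  have h1 := norm_integral_le_of_norm_le hsum (ae_of_all _ hI)
  rw [← osc_avg hSI hn1 hg X R u hu] at h1
  rw [integral_const_mul, integral_add ((hki u).const_mul Ap) ((hki (-u)).const_mul Am),
    integral_const_mul, integral_const_mul] at h1
  have h2 : K * (Ap * ∫ ζ, k u ζ ∂(sg n) + Am * ∫ ζ, k (-u) ζ ∂(sg n)) ≤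
      K * ((Ap + Am) * (C₂ * T)) := by
    have a1 := hkI u hu
    have a2 := hkI (-u) (by rw [norm_neg, hu])
    apply mul_le_mul_of_nonneg_left _ hK0
    nlinarith [mul_le_mul_of_nonneg_left a1 hAp0, mul_le_mul_of_nonneg_left a2 hAm0]
  have h3 : C₂⁻¹ * T ≤ mR n R u := by
    refine le_trans ?_ (mR_lower hR u)
    have := (hC₂ ρ u hρ1 hu).2.1
    unfold Measure.real
    rwa [← ENNReal.ofReal_le_iff_le_toReal (measure_ne_top _ _)]
  have hm0 : 0 < mR n R u := lt_of_lt_of_le (by positivity) h3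
  rw [norm_mul, Complex.norm_real, Real.norm_of_nonneg hm0.le] at h1
  have h4 : C₂⁻¹ * T * ‖osc n g X R u‖ ≤ K * ((Ap + Am) * (C₂ * T)) :=
    (mul_le_mul_of_nonneg_right h3 (norm_nonneg _)).trans (h1.trans h2)
  have h5 : ‖osc n g X R u‖ ≤ K * (Ap + Am) * C₂ ^ 2 := by
    have h6 : C₂⁻¹ * T * ‖osc n g X R u‖ ≤ C₂⁻¹ * T * (K * (Ap + Am) * C₂ ^ 2) := by
      refine h4.trans (le_of_eq ?_)
      field_simp
    exact le_of_mul_le_mul_left h6 (by positivity)
  refine h5.trans (le_of_eq ?_)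
  simp only [hK]
  ring

end Pool.Agent.H31.BR
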