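import Pool.Agent.H93.AR.Defs
import Pool.Agent.H54.LS.AVG

/-! Module AF: the angular average commutes with the Fourier transform. -/

set_option autoImplicit false

open MeasureTheory Set Pool.Agent.H83.LS Pool.Agent.H54.LS Pool.Agent.H93.AR FourierTransform
open scoped ENNReal NNReal

namespace Pool.Agent.H31.BR

theorem comp2 {α β γ δ : Type*} [MeasurableSpace α] [MeasurableSpace β] [MeasurableSpace γ]
    [MeasurableSpace δ] (k : α → β → γ) (hk : Measurable fun q : α × β => k q.1 q.2)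
    (g₁ : δ → α) (g₂ : δ → β) (h₁ : Measurable g₁) (h₂ : Measurable g₂) :
    Measurable fun d => k (g₁ d) (g₂ d) :=
  hk.comp (h₁.prodMk h₂)

theorem zk_meas (hZB : T_ZB) {n : ℕ} (hn : 1 ≤ n) {L : ℝ} (hL : 1 ≤ L) :
    Measurable fun q : EE n × EE n => zk n L q.1 q.2 := by
  obtain ⟨C, hC⟩ := hZB n hn
  exact (hC L hL).1

theorem zk_nonneg (hZB : T_ZB) {n : ℕ} (hn : 1 ≤ n) {L : ℝ} (hL : 1 ≤ L) (u v : EE n) :
    0 ≤ zk n L u v := by
  obtain ⟨C, hC⟩ := hZB n hn
  exact (hC L hL).2.2.1 u v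

theorem zk_symm (hZB : T_ZB) {n : ℕ} (hn : 1 ≤ n) {L : ℝ} (hL : 1 ≤ L) (u v : EE n)
    (hu : ‖u‖ = 1) (hv : ‖v‖ = 1) : zk n L u v = zk n L v u := by
  obtain ⟨C, hC⟩ := hZB n hn
  exact (hC L hL).2.2.2.2.1 u v hu hv

theorem zk_inv (hZB : T_ZB) {n : ℕ} (hn : 1 ≤ n) {L : ℝ} (hL : 1 ≤ L) (Q : EE n ≃ₗᵢ[ℝ] EE n)
    (u v : EE n) : zk n L (Q u) (Q v) = zk n L u v := by
  obtain ⟨C, hC⟩ := hZB n hn
  exact (hC L hL).2.2.2.2.2.2 Q u v

theorem zk_slice (hZB : T_ZB) {n : ℕ} (hn : 1 ≤ n) {L : ℝ} (hL : 1 ≤ L) (θ : EE n) :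
    Measurable fun w : Sp n => zk n L θ (w : EE n) := by
  have h := zk_meas hZB hn hL
  exact comp2 (zk n L) h (fun _ : Sp n => θ) (fun w : Sp n => (w : EE n)) measurable_const
    measurable_subtype_coe

theorem zk_integrable (hZB : T_ZB) (hZN : T_ZN) {n : ℕ} (hn : 1 ≤ n) {L : ℝ} (hL : 1 ≤ L)
    (θ : EE n) (hθ : θ = 0 ∨ ‖θ‖ = 1) :
    Integrable (fun w : Sp n => ((zk n L θ (w : EE n) : ℝ) : ℂ)) (sg n) := by
  have h1 : Integrable (fun w : Sp n => zk n L θ (w : EE n)) (sg n) := by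
    refine ⟨(zk_slice hZB hn hL θ).aestronglyMeasurable, ?_⟩
    rw [hasFiniteIntegral_iff_ofReal (ae_of_all _ fun w => zk_nonneg hZB hn hL _ _),
      hZN n L θ hn hL hθ]
    exact ENNReal.one_lt_top
  exact h1.ofReal

theorem zk_mass (hZB : T_ZB) (hZN : T_ZN) {n : ℕ} (hn : 1 ≤ n) {L : ℝ} (hL : 1 ≤ L)
    (θ : EE n) (hθ : θ = 0 ∨ ‖θ‖ = 1) :
    ∫ w : Sp n, ((zk n L θ (w : EE n) : ℝ) : ℂ) ∂(sg n) = 1 := by
  have h1 : ∫ w : Sp n, zk n L θ (w : EE n) ∂(sg n) = 1 := by
    rw [integral_eq_lintegral_of_nonneg_ae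
      (ae_of_all _ fun w => zk_nonneg hZB hn hL _ _) (zk_slice hZB hn hL θ).aestronglyMeasurable,
      hZN n L θ hn hL hθ]
    simp
  have h2 := integral_ofReal (𝕜 := ℂ) (μ := sg n) (f := fun w : Sp n => zk n L θ (w : EE n))
  rw [h1] at h2
  exact h2.trans (by simp)

/-- the kernel identity behind the module -/
theorem key (hZC : T_ZC) (hZB : T_ZB) (hZN : T_ZN) {n : ℕ} (hn : 1 ≤ n) {L : ℝ} (hL : 1 ≤ L)
    (η : EE n) (a : ℝ) (w' : Sp n) (t : ℝ) :
    ∫ w : Sp n, ((zk n L (‖η‖⁻¹ • η) (w : EE n) : ℝ) : ℂ) *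
        e (-(a * ‖η‖ * inner ℝ (w' : EE n) (w : EE n) + t)) ∂(sg n) =
      ∫ w : Sp n, e (-(a * inner ℝ (w : EE n) η + t)) *
        ((zk n L (w : EE n) (w' : EE n) : ℝ) : ℂ) ∂(sg n) := by
  by_cases hη : η = 0
  · subst hη
    simp only [norm_zero, mul_zero, zero_mul, inner_zero_right, smul_zero]
    rw [integral_mul_const, integral_const_mul]
    have h1 : ∀ w : Sp n, ((zk n L (w : EE n) (w' : EE n) : ℝ) : ℂ) =
        ((zk n L (w' : EE n) (w : EE n) : ℝ) : ℂ) := by
      intro w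
      rw [zk_symm hZB hn hL _ _ (norm_sp w) (norm_sp w')]
    simp_rw [h1]
    rw [zk_mass hZB hZN hn hL _ (Or.inl rfl), zk_mass hZB hZN hn hL _ (Or.inr (norm_sp w'))]
    ring
  · have hη0 : 0 < ‖η‖ := norm_pos_iff.2 hη
    have hθ : ‖‖η‖⁻¹ • η‖ = 1 := by
      rw [norm_smul, norm_inv, norm_norm, inv_mul_cancel₀ hη0.ne']
    have h := hZC n (fun u v => e (-(a * ‖η‖ * inner ℝ u v + t)))
      (fun u v => ((zk n L u v : ℝ) : ℂ)) hn ?_ ?_ (‖η‖⁻¹ • η) (w' : EE n) hθ (norm_sp w')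
    · have e1 : ∀ w : Sp n, a * ‖η‖ * inner ℝ (‖η‖⁻¹ • η) (w : EE n) =
          a * inner ℝ (w : EE n) η := by
        intro w
        rw [inner_smul_left, real_inner_comm]
        simp only [conj_trivial]
        field_simp
      have h' := h.symm
      refine Eq.trans ?_ (h'.trans ?_)
      · refine integral_congr_ae (ae_of_all _ fun w => ?_)
        simp only
        rw [real_inner_comm]
      · refine integral_congr_ae (ae_of_all _ fun w => ?_)
        simp only
        rw [e1]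
    · intro Q u v
      refine ⟨?_, ?_⟩
      · rw [Q.inner_map_map]
      · rw [zk_inv hZB hn hL]
    · intro u v hu hv
      refine ⟨?_, ?_⟩
      · rw [real_inner_comm]
      · rw [zk_symm hZB hn hL _ _ hu hv]

theorem pf_af (hZC : T_ZC) (hZB : T_ZB) (hZN : T_ZN) (hAM : T_AM) : T_AF := by
  intro n L f hn hL hfm hfi hfb ξ
  obtain ⟨A, hA⟩ := hfb
  obtain ⟨am1, am2, -, am4, -, -⟩ := hAM n L hn hL
  have hm := am1 f hfm
  have hint := am4 f hfm hfi
  set η : EE n := pr ξ with hηdef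
  have hhor : hor ξ = ‖η‖ := hor_eq ξ
  have hθ : (‖η‖⁻¹ • η) = 0 ∨ ‖‖η‖⁻¹ • η‖ = 1 := by
    by_cases h0 : η = 0
    · left
      simp [h0]
    · right
      rw [norm_smul, norm_inv, norm_norm, inv_mul_cancel₀ (norm_ne_zero_iff.2 h0)]
  -- the left side
  have hL1 : AEStronglyMeasurable (fun x : EE (n + 1) => e (-inner ℝ x ξ) * AL L f x) :=
    ((continuous_e.comp (by fun_prop)).aestronglyMeasurable).mul hm.aestronglyMeasurable
  have hLi : Integrable (fun x : EE (n + 1) => e (-inner ℝ x ξ) * AL L f x) := by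
    apply hint.bdd_mul (c := 1)
    · exact (continuous_e.comp (by fun_prop)).aestronglyMeasurable
    · exact Filter.Eventually.of_forall (fun ζ => (norm_e _).le)
  rw [Pool.Agent.H19.LS.fourier_e, ← integral_mp (mp_cyl n hn) hL1]
  have hLi' : Integrable (fun q : Sp n × (Ioi (0 : ℝ) × ℝ) =>
      e (-inner ℝ (jo ((q.2.1 : ℝ) • (q.1 : EE n)) q.2.2) ξ) *
        AL L f (jo ((q.2.1 : ℝ) • (q.1 : EE n)) q.2.2)) ((sg n).prod ((nu n).prod volume)) :=
    (mp_cyl n hn).integrable_comp_of_integrable hLi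
  rw [integral_prod_symm _ hLi']
  -- the right side
  let J : EE (n + 1) → ℂ := fun x =>
    ∫ w : Sp n, ((zk n L (‖η‖⁻¹ • η) (w : EE n) : ℝ) : ℂ) *
      e (-inner ℝ x (jo (‖η‖ • (w : EE n)) (ξ (Fin.last n)))) ∂(sg n)
  have hzi := zk_integrable hZB hZN hn hL (‖η‖⁻¹ • η) hθ
  have hjc : Continuous fun q : EE (n + 1) × Sp n =>
      e (-inner ℝ q.1 (jo (‖η‖ • (q.2 : EE n)) (ξ (Fin.last n)))) := by
    apply continuous_e.comp
    have h3 : Continuous fun q : EE (n + 1) × Sp n =>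
        jo (‖η‖ • (q.2 : EE n)) (ξ (Fin.last n)) := by
      have h4 : Continuous fun q : EE (n + 1) × Sp n =>
          ((‖η‖ • (q.2 : EE n), ξ (Fin.last n)) : EE n × ℝ) := by
        refine Continuous.prodMk ?_ continuous_const
        have h5 : Continuous fun q : EE (n + 1) × Sp n => (q.2 : EE n) :=
          continuous_subtype_val.comp continuous_snd
        exact h5.const_smul ‖η‖
      exact continuous_jo.comp h4
    exact (continuous_fst.inner h3).neg
  have hJm : StronglyMeasurable J := by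
    have h1 : StronglyMeasurable fun q : EE (n + 1) × Sp n =>
        ((zk n L (‖η‖⁻¹ • η) (q.2 : EE n) : ℝ) : ℂ) *
          e (-inner ℝ q.1 (jo (‖η‖ • (q.2 : EE n)) (ξ (Fin.last n)))) := by
      have h2 : Measurable fun w : Sp n => ((zk n L (‖η‖⁻¹ • η) (w : EE n) : ℝ) : ℂ) :=
        (zk_slice hZB hn hL _).complex_ofReal
      exact ((h2.comp measurable_snd).mul hjc.measurable).stronglyMeasurable
    exact h1.integral_prod_right
  have hJb : ∀ x, ‖J x‖ ≤ ∫ w : Sp n, ‖((zk n L (‖η‖⁻¹ • η) (w : EE n) : ℝ) : ℂ)‖ ∂(sg n) := by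
    intro x
    refine (norm_integral_le_integral_norm _).trans (le_of_eq ?_)
    refine integral_congr_ae (ae_of_all _ fun w => ?_)
    simp only
    rw [norm_mul, norm_e, mul_one]
  have hJF : Integrable (fun x => J x * f x) :=
    hfi.bdd_mul (c := _) hJm.aestronglyMeasurable (ae_of_all _ hJb)
  have hR : AL L (𝓕 f) ξ = ∫ x : EE (n + 1), J x * f x := by
    unfold AL
    rw [hhor]
    simp_rw [Pool.Agent.H19.LS.fourier_e, ← integral_const_mul]
    rw [integral_integral_swap]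
    · refine integral_congr_ae (ae_of_all _ fun x => ?_)
      simp only
      rw [← integral_mul_const]
      refine integral_congr_ae (ae_of_all _ fun w => ?_)
      simp only [mul_assoc]
      rfl
    · have h1 : Integrable (fun q : Sp n × EE (n + 1) =>
          ((zk n L (‖η‖⁻¹ • η) (q.1 : EE n) : ℝ) : ℂ) * f q.2) ((sg n).prod volume) :=
        hzi.mul_prod hfi
      have h2 : Integrable (fun q : Sp n × EE (n + 1) =>
          e (-inner ℝ q.2 (jo (‖η‖ • (q.1 : EE n)) (ξ (Fin.last n)))) *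
            (((zk n L (‖η‖⁻¹ • η) (q.1 : EE n) : ℝ) : ℂ) * f q.2)) ((sg n).prod volume) := by
        apply h1.bdd_mul (c := 1)
        · exact (hjc.comp continuous_swap).aestronglyMeasurable
        · exact Filter.Eventually.of_forall (fun ζ => (norm_e _).le)
      refine h2.congr (ae_of_all _ fun q => ?_)
      simp only [Function.uncurry]
      show _ = ((zk n L (‖η‖⁻¹ • η) (q.1 : EE n) : ℝ) : ℂ) * _
      ring
  rw [hR, ← integral_mp (mp_cyl n hn) hJF.1]
  have hJF' : Integrable (fun q : Sp n × (Ioi (0 : ℝ) × ℝ) =>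
      J (jo ((q.2.1 : ℝ) • (q.1 : EE n)) q.2.2) *
        f (jo ((q.2.1 : ℝ) • (q.1 : EE n)) q.2.2)) ((sg n).prod ((nu n).prod volume)) :=
    (mp_cyl n hn).integrable_comp_of_integrable hJF
  rw [integral_prod_symm _ hJF']
  refine integral_congr_ae (ae_of_all _ fun r => ?_)
  obtain ⟨ρ, z⟩ := r
  have hρ : 0 < (ρ : ℝ) := ρ.2
  have hAL : ∀ w : Sp n, AL L f (jo ((ρ : ℝ) • (w : EE n)) z) =
      ∫ w' : Sp n, ((zk n L (w : EE n) (w' : EE n) : ℝ) : ℂ) *
        f (jo ((ρ : ℝ) • (w' : EE n)) z) ∂(sg n) := by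
    intro w
    unfold AL
    rw [hor_cyl, jo_last, pr_jo, smul_smul, inv_mul_cancel₀ hρ.ne', one_smul]
  have hJc : ∀ w' : Sp n, J (jo ((ρ : ℝ) • (w' : EE n)) z) =
      ∫ w : Sp n, e (-((ρ : ℝ) * inner ℝ (w : EE n) η + z * ξ (Fin.last n))) *
        ((zk n L (w : EE n) (w' : EE n) : ℝ) : ℂ) ∂(sg n) := by
    intro w'
    rw [← key hZC hZB hZN hn hL η (ρ : ℝ) w' (z * ξ (Fin.last n))]
    refine integral_congr_ae (ae_of_all _ fun w => ?_)
    simp only
    rw [jo_inner, inner_smul_left, inner_smul_right]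
    simp only [conj_trivial]
    rw [mul_assoc (ρ : ℝ)]
  simp only
  simp_rw [hAL, hJc, ← integral_const_mul, ← integral_mul_const]
  rw [integral_integral_swap]
  · refine integral_congr_ae (ae_of_all _ fun w' => ?_)
    refine integral_congr_ae (ae_of_all _ fun w => ?_)
    simp only
    rw [inner_eq, pr_jo, jo_last, inner_smul_left]
    simp only [conj_trivial]
    ring
  · obtain ⟨C, hC⟩ := hZB n hn
    obtain ⟨hC1, hC2, hC3, hC4, -⟩ := hC L hL
    have hmm : Measurable fun q : Sp n × Sp n => e (-inner ℝ (jo ((ρ : ℝ) • (q.1 : EE n)) z) ξ) *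
        (((zk n L (q.1 : EE n) (q.2 : EE n) : ℝ) : ℂ) * f (jo ((ρ : ℝ) • (q.2 : EE n)) z)) := by
      have hzz : Measurable fun q : Sp n × Sp n => zk n L (q.1 : EE n) (q.2 : EE n) :=
        comp2 (zk n L) hC1 (fun q : Sp n × Sp n => (q.1 : EE n))
          (fun q : Sp n × Sp n => (q.2 : EE n))
          (measurable_subtype_coe.comp measurable_fst)
          (measurable_subtype_coe.comp measurable_snd)
      have hj : Continuous fun w : Sp n => jo ((ρ : ℝ) • (w : EE n)) z := by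
        have h2 : Continuous fun w : Sp n => (((ρ : ℝ) • (w : EE n), z) : EE n × ℝ) :=
          Continuous.prodMk (continuous_subtype_val.const_smul (ρ : ℝ)) continuous_const
        exact continuous_jo.comp h2
      have hj1 : Measurable fun q : Sp n × Sp n =>
          e (-inner ℝ (jo ((ρ : ℝ) • (q.1 : EE n)) z) ξ) := by
        have : Continuous fun w : Sp n => e (-inner ℝ (jo ((ρ : ℝ) • (w : EE n)) z) ξ) :=
          continuous_e.comp (hj.inner continuous_const).neg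
        exact this.measurable.comp measurable_fst
      have hj2 : Measurable fun q : Sp n × Sp n =>
          ((zk n L (q.1 : EE n) (q.2 : EE n) : ℝ) : ℂ) := by
        exact hzz.complex_ofReal
      have hj3 : Measurable fun q : Sp n × Sp n => f (jo ((ρ : ℝ) • (q.2 : EE n)) z) := by
        have : Measurable fun w : Sp n => f (jo ((ρ : ℝ) • (w : EE n)) z) :=
          hfm.comp hj.measurable
        exact this.comp measurable_snd
      exact hj1.mul (hj2.mul hj3)
    refine Integrable.of_bound hmm.aestronglyMeasurable (C * L ^ (n - 1) * A)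
      (ae_of_all _ fun q => ?_)
    rw [Function.uncurry, norm_mul, norm_e, one_mul, norm_mul, Complex.norm_real,
      Real.norm_of_nonneg (hC3 _ _)]
    exact mul_le_mul (hC4 _ _ (norm_sp _) (norm_sp _)) (hA _) (norm_nonneg _)
      ((hC3 _ _).trans (hC4 _ _ (norm_sp q.1) (norm_sp q.2)))

end Pool.Agent.H31.BR
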